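import Pool.Agent.H6.N4D.TA

/-!
# WTS: weights of sets of prime numbers
-/

set_option autoImplicit false

open Finset Pool.Agent.H6.N4D

namespace Pool.Agent.H1.N4D

/-- Mertens' theorem for the primes in `(y, z]` -/
theorem mer_bd {C : ℝ} (hC : ∀ x : ℝ, 1 ≤ x → |∑ p ∈ Pr 1 x, Real.log p / p - Real.log x| ≤ C)
    {y z : ℝ} (hy : 1 ≤ y) (hyz : y ≤ z) :
    |∑ p ∈ Pr y z, Real.log p / p - (Real.log z - Real.log y)| ≤ 2 * C := by
  have h1 := hC y hy
  have h2 := hC z (hy.trans hyz)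
  have h3 : ∑ p ∈ Pr 1 z, Real.log p / p = ∑ p ∈ Pr 1 y, Real.log p / p +
      ∑ p ∈ Pr y z, Real.log p / p := by
    unfold Pr
    rw [sum_filter, sum_filter, sum_filter, sum_Ioc_consecutive]
    · exact Nat.floor_le_floor hy
    · exact Nat.floor_le_floor hyz
  rw [h3] at h2
  rw [abs_le] at h1 h2 ⊢
  constructor <;> linarith [h1.1, h1.2, h2.1, h2.2]

theorem wt_up {C : ℝ} (hC : ∀ x : ℝ, 1 ≤ x → |∑ p ∈ Pr 1 x, Real.log p / p - Real.log x| ≤ C)
    {y z : ℝ} (hy : 1 < y) (hyz : y ≤ z) :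
    ∑ p ∈ Pr y z, 1 / (p : ℝ) ≤ (Real.log z - Real.log y + 2 * C) / Real.log y := by
  have hl : 0 < Real.log y := Real.log_pos hy
  have h1 := (abs_le.1 (mer_bd hC hy.le hyz)).2
  rw [le_div_iff₀ hl]
  calc (∑ p ∈ Pr y z, 1 / (p : ℝ)) * Real.log y ≤ ∑ p ∈ Pr y z, Real.log p / p := by
        rw [sum_mul]
        refine sum_le_sum fun p hp => ?_
        have h2 := (mem_Pr (by linarith)).1 hp
        have hp0 : (0 : ℝ) < p := by linarith [h2.1]
        rw [one_div_mul_eq_div]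
        refine div_le_div_of_nonneg_right ?_ hp0.le
        exact Real.log_le_log (by linarith) h2.1.le
    _ ≤ Real.log z - Real.log y + 2 * C := by linarith

theorem wt_lo {C : ℝ} (hC : ∀ x : ℝ, 1 ≤ x → |∑ p ∈ Pr 1 x, Real.log p / p - Real.log x| ≤ C)
    {y z : ℝ} (hy : 1 < y) (hyz : y ≤ z) :
    (Real.log z - Real.log y - 2 * C) / Real.log z ≤ ∑ p ∈ Pr y z, 1 / (p : ℝ) := by
  have hl : 0 < Real.log z := Real.log_pos (lt_of_lt_of_le hy hyz)
  have h1 := (abs_le.1 (mer_bd hC hy.le hyz)).1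
  rw [div_le_iff₀ hl]
  calc Real.log z - Real.log y - 2 * C ≤ ∑ p ∈ Pr y z, Real.log p / p := by linarith
    _ ≤ (∑ p ∈ Pr y z, 1 / (p : ℝ)) * Real.log z := by
        rw [sum_mul]
        refine sum_le_sum fun p hp => ?_
        have h2 := (mem_Pr (by linarith)).1 hp
        have hp0 : (0 : ℝ) < p := by linarith [h2.1]
        rw [one_div_mul_eq_div]
        refine div_le_div_of_nonneg_right ?_ hp0.le
        exact Real.log_le_log hp0 h2.2.1

theorem mer_nonneg {C : ℝ}
    (hC : ∀ x : ℝ, 1 ≤ x → |∑ p ∈ Pr 1 x, Real.log p / p - Real.log x| ≤ C) : 0 ≤ C :=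
  (abs_nonneg _).trans (hC 1 le_rfl)

theorem log_PP_pow (X : ℝ) (m : ℕ) : Real.log (PP X ^ m) = m * LL X := by
  rw [Real.log_pow, log_PP]

theorem one_lt_PP {X : ℝ} (h : 0 < LL X) : 1 < PP X := by
  rw [← Real.log_pos_iff (PP_pos X).le, log_PP]
  exact h

theorem pf_WTS (hMER : T_MER) : T_WTS := by
  obtain ⟨C, hC⟩ := hMER
  have hC0 := mer_nonneg hC
  obtain ⟨X₀, hX₀⟩ := LL_large (8 * C + 1)
  refine ⟨⟨X₀, fun X hX => ?_⟩, fun B hB => ⟨X₀, fun X hX => ?_⟩,
    fun K hK => ⟨X₀, fun X hX y hy1 hy2 => ?_⟩⟩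
  · have hL := hX₀ X hX
    have hL0 : 0 < LL X := by linarith
    have hP := one_lt_PP hL0
    have h1 := wt_lo hC hP (show PP X ≤ PP X ^ 2 by nlinarith)
    rw [log_PP_pow, log_PP] at h1
    refine le_trans ?_ h1
    push_cast
    rw [le_div_iff₀ (by linarith)]
    linarith
  · have hL := hX₀ X hX
    have hL0 : 0 < LL X := by linarith
    have hP := one_lt_PP hL0
    have h1 := wt_up hC hP (show PP X ≤ PP X ^ B from le_self_pow₀ hP.le (by omega))
    rw [log_PP_pow, log_PP] at h1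
    refine h1.trans ?_
    rw [div_le_iff₀ hL0]
    linarith
  · have hL := hX₀ X hX
    have hL0 : 0 < LL X := by linarith
    have hP := one_lt_PP hL0
    have hK1 : (1 : ℝ) ≤ K := by exact_mod_cast hK
    have hPK : 1 < PP X ^ K := one_lt_pow₀ hP (by omega)
    have hy : 1 < y := lt_of_lt_of_le hPK hy1
    have hy0 : 0 < y := by linarith
    have h12 : 1 ≤ PP X ^ (1 / 2 : ℝ) := Real.one_le_rpow hP.le (by norm_num)
    have hyz : y ≤ y * PP X ^ (1 / 2 : ℝ) := le_mul_of_one_le_right hy0.le h12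
    have hlz : Real.log (y * PP X ^ (1 / 2 : ℝ)) = Real.log y + LL X / 2 := by
      rw [Real.log_mul hy0.ne' (by linarith), Real.log_rpow (PP_pos X), log_PP]
      ring
    have hly1 : K * LL X ≤ Real.log y := by
      rw [← log_PP_pow]
      exact Real.log_le_log (by linarith) hy1
    have hly2 : Real.log y ≤ 2 * K * LL X := by
      have h3 := Real.log_le_log hy0 hy2
      rw [log_PP_pow] at h3
      push_cast at h3
      exact h3
    have hKL : LL X ≤ K * LL X := le_mul_of_one_le_left hL0.le hK1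
    constructor
    · refine le_trans ?_ (wt_lo hC hy hyz)
      rw [hlz, div_le_div_iff₀ (by positivity) (by linarith)]
      have h4 : K * (8 * C) ≤ K * LL X := by
        refine mul_le_mul_of_nonneg_left (by linarith) (by linarith)
      nlinarith
    · refine (wt_up hC hy hyz).trans ?_
      rw [hlz, div_le_iff₀ (by linarith)]
      linarith

end Pool.Agent.H1.N4D
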