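import Pool.Agent.H6.N4D.TA

/-!
# PWM: the pointwise inequality with signs
-/

set_option autoImplicit false

open Finset Pool.Agent.H6.N4D

namespace Pool.Agent.H1.N4D

theorem red_cos (ξ : ℝ) : ∃ ξ' : ℝ, |ξ'| ≤ 1 / 2 ∧ ∀ m : ℤ,
    Real.cos (2 * Real.pi * ξ * m) = Real.cos (2 * Real.pi * ξ' * m) := by
  refine ⟨ξ - round ξ, abs_sub_round ξ, fun m => ?_⟩
  have h1 : 2 * Real.pi * (ξ - round ξ) * m =
      2 * Real.pi * ξ * m - ((round ξ * m : ℤ) : ℝ) * (2 * Real.pi) := by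
    push_cast
    ring
  rw [h1, Real.cos_sub_int_mul_two_pi]

theorem one_add_cos_lb {y : ℝ} (hy : |y| ≤ 21 / 10) : 2 / 5 ≤ 1 + Real.cos y := by
  have h1 : 1 - (y / 2) ^ 2 / 2 ≤ Real.cos (y / 2) := Real.one_sub_sq_div_two_le_cos
  have h2 : y ^ 2 ≤ (21 / 10) ^ 2 := by
    rw [← sq_abs]
    exact pow_le_pow_left₀ (abs_nonneg _) hy 2
  have h3 : Real.cos y = 2 * Real.cos (y / 2) ^ 2 - 1 := by
    rw [← Real.cos_two_mul]
    congr 1
    ring
  have h4 : (448 / 1000 : ℝ) ≤ Real.cos (y / 2) := by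
    nlinarith
  have h5 : (448 / 1000 : ℝ) ^ 2 ≤ Real.cos (y / 2) ^ 2 := pow_le_pow_left₀ (by norm_num) h4 2
  rw [h3]
  norm_num at h5
  linarith

theorem pf_PWM (hWTS : T_WTS) (hAVG : T_AVG) (hSIZ : T_SIZ) : T_PWM := by
  intro B c X₁ hG
  obtain ⟨hc, hB, hGap⟩ := hG
  obtain ⟨⟨Xa, hXa⟩, hW2, -⟩ := hWTS
  obtain ⟨Xb, hXb⟩ := hW2 B (by omega)
  obtain ⟨Xs, hXs⟩ := hSIZ
  refine ⟨min (1 / 10) (c / 2), max (max Xa Xb) (max (max Xs X₁) (max (B / c) 13)),
    lt_min (by norm_num) (by linarith), fun S hS hX ξ => ?_⟩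
  have e1 : Xa ≤ S.X := (le_max_left _ _).trans ((le_max_left _ _).trans hX)
  have e2 : Xb ≤ S.X := (le_max_right _ _).trans ((le_max_left _ _).trans hX)
  have e3 : Xs ≤ S.X := (le_max_left _ _).trans ((le_max_left _ _).trans
    ((le_max_right _ _).trans hX))
  have e4 : X₁ ≤ S.X := (le_max_right _ _).trans ((le_max_left _ _).trans
    ((le_max_right _ _).trans hX))
  have e5 : B / c ≤ S.X := (le_max_left _ _).trans ((le_max_right _ _).trans
    ((le_max_right _ _).trans hX))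
  have e6 : (13 : ℝ) ≤ S.X := (le_max_right _ _).trans ((le_max_right _ _).trans
    ((le_max_right _ _).trans hX))
  obtain ⟨hL1, hP100, hrX, hr100, hh4, hV1, hV2, hV, -, hl, -, hN, -⟩ := hXs S hS e3
  have hh := hS.hh
  have hX0 : 0 < S.X := by linarith
  obtain ⟨ξ', hξ, hcos⟩ := red_cos ξ
  have hcosN : ∀ w : ℕ, Real.cos (2 * Real.pi * ξ * w) = Real.cos (2 * Real.pi * ξ' * w) :=
    fun w => by
      have := hcos (w : ℤ)
      push_cast at this
      exact this
  have hs1 : ∑ p ∈ Pr S.P (S.P ^ B), 1 / (p : ℝ) * (1 + Real.cos (2 * Real.pi * ξ * S.l p)) =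
      ∑ p ∈ Pr S.P (S.P ^ B), 1 / (p : ℝ) * (1 + Real.cos (2 * Real.pi * ξ' * S.l p)) :=
    sum_congr rfl fun p _ => by rw [hcos]
  have hs2 : ∑ w ∈ Icc 1 S.V, (1 - Real.cos (2 * Real.pi * ξ * w)) =
      ∑ w ∈ Icc 1 S.V, (1 - Real.cos (2 * Real.pi * ξ' * w)) :=
    sum_congr rfl fun w _ => by rw [hcosN]
  rw [hs1, hs2]
  have hterm : ∀ (p : ℕ) (y : ℝ), 0 ≤ 1 / (p : ℝ) * (1 + Real.cos y) := fun p y =>
    mul_nonneg (by positivity) (by linarith [Real.neg_one_le_cos y])
  have hT1 : 0 ≤ ∑ p ∈ Pr S.P (S.P ^ B),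
      1 / (p : ℝ) * (1 + Real.cos (2 * Real.pi * ξ' * S.l p)) :=
    sum_nonneg fun p _ => hterm p _
  have hT2 : 0 ≤ 1 / (S.V : ℝ) * ∑ w ∈ Icc 1 S.V, (1 - Real.cos (2 * Real.pi * ξ' * w)) :=
    mul_nonneg (by positivity) (sum_nonneg fun w _ => by
      linarith [Real.cos_le_one (2 * Real.pi * ξ' * w)])
  obtain ⟨u, hu⟩ : ∃ u, u = 2 * Real.pi * ξ' / S.h := ⟨_, rfl⟩
  have huh : ∀ y : ℝ, 2 * Real.pi * ξ' * y = u * (S.h * y) := by
    intro y
    rw [hu]
    field_simp
  have hP1 : (1 : ℝ) ≤ S.P := by linarith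
  have hPB : 0 ≤ S.P ^ B := by positivity
  -- the prime numbers in the sum
  have hmem : ∀ p ∈ Pr S.P (S.P ^ B), 1 ≤ p := fun p hp => ((mem_Pr hPB).1 hp).2.2.one_lt.le
  have hdist : ∀ p ∈ Pr S.P (S.P ^ B), |u * (S.h * S.l p) - u * Real.log p| ≤
      |u| * (S.h / 2) := by
    intro p hp
    rw [← mul_sub, abs_mul]
    exact mul_le_mul_of_nonneg_left (hl p (hmem p hp)) (abs_nonneg _)
  have hLpos : 0 < S.L := by linarith
  rcases le_or_gt |u| (1 / S.L) with hA | hA
  · -- small frequencies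
    have hsub : Pr S.P (S.P ^ 2) ⊆ Pr S.P (S.P ^ B) := by
      unfold Pr
      refine filter_subset_filter _ (Ioc_subset_Ioc_right ?_)
      exact Nat.floor_le_floor (pow_le_pow_right₀ hP1 hB)
    have hw : 1 / 4 ≤ ∑ p ∈ Pr S.P (S.P ^ 2), 1 / (p : ℝ) := hXa S.X e1
    have h1 : ∑ p ∈ Pr S.P (S.P ^ 2), 1 / (p : ℝ) * (2 / 5) ≤ ∑ p ∈ Pr S.P (S.P ^ B),
        1 / (p : ℝ) * (1 + Real.cos (2 * Real.pi * ξ' * S.l p)) := by
      refine le_trans (sum_le_sum fun p hp => ?_) (sum_le_sum_of_subset_of_nonneg hsub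
        fun p _ _ => hterm p _)
      refine mul_le_mul_of_nonneg_left (one_add_cos_lb ?_) (by positivity)
      rw [huh]
      have h2 := hdist p (hsub hp)
      have h3 := (mem_Pr (by positivity)).1 hp
      have hp0 : (0 : ℝ) < p := by linarith [h3.1]
      have h4 : Real.log p ≤ 2 * S.L := by
        have h5 := Real.log_le_log hp0 h3.2.1
        rw [Real.log_pow, Par.log_P] at h5
        exact_mod_cast h5
      have h5 : 0 ≤ Real.log p := Real.log_nonneg (by linarith [h3.1])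
      have h6 : |u * Real.log p| ≤ 2 := by
        rw [abs_mul, abs_of_nonneg h5]
        calc |u| * Real.log p ≤ 1 / S.L * (2 * S.L) :=
              mul_le_mul hA h4 h5 (by positivity)
          _ = 2 := by
              field_simp
      have h7 : |u| * (S.h / 2) ≤ 1 / 10 := by
        have h8 : |u| ≤ 1 := hA.trans (by
          rw [div_le_one hLpos]
          exact hL1)
        have h9 : S.h ≤ 1 / 10 := by
          have h10 : S.rho ^ 4 ≤ (1 / 100) ^ 4 := pow_le_pow_left₀ hS.hr0.le hr100 4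
          norm_num at h10
          linarith
        nlinarith [abs_nonneg u]
      have h8 : |u * (S.h * S.l p)| ≤ |u * Real.log p| + |u * (S.h * S.l p) - u * Real.log p| := by
        have := abs_add_le (u * Real.log p) (u * (S.h * S.l p) - u * Real.log p)
        rwa [add_sub_cancel] at this
      linarith
    rw [← sum_mul] at h1
    refine (min_le_left _ _).trans ?_
    linarith
  · rcases le_or_gt |u| (S.X ^ 3) with hU | hU
    · -- the gap
      have h1 := (hGap S.X u e4 hA.le hU).2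
      have h2 : ∑ p ∈ Pr S.P (S.P ^ B), 1 / (p : ℝ) * (1 + Real.cos (u * Real.log p)) ≤
          ∑ p ∈ Pr S.P (S.P ^ B), (1 / (p : ℝ) * (1 + Real.cos (2 * Real.pi * ξ' * S.l p)) +
            1 / (p : ℝ) * (|u| * (S.h / 2))) := by
        refine sum_le_sum fun p hp => ?_
        rw [← mul_add]
        refine mul_le_mul_of_nonneg_left ?_ (by positivity)
        rw [huh]
        have h3 := Real.abs_cos_sub_cos_le (u * Real.log p) (u * (S.h * S.l p))
        have h4 := hdist p hp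
        rw [abs_sub_comm] at h4
        have h5 := le_abs_self (Real.cos (u * Real.log p) - Real.cos (u * (S.h * S.l p)))
        linarith
      rw [sum_add_distrib, ← sum_mul] at h2
      have h3 : ∑ p ∈ Pr S.P (S.P ^ B), 1 / (p : ℝ) ≤ B := hXb S.X e2
      have h4 : |u| * (S.h / 2) ≤ 1 / (2 * S.X) := by
        have h5 := hS.hX5
        rw [le_div_iff₀ (by positivity)]
        have h6 : |u| * (S.h / 2) * (2 * S.X) = |u| * S.h * S.X := by ring
        rw [h6]
        have h7 : |u| * S.h * S.X ≤ S.X ^ 3 * S.h * S.X := by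
          refine mul_le_mul_of_nonneg_right ?_ hX0.le
          exact mul_le_mul_of_nonneg_right hU hh.le
        have h8 : S.X ^ 3 * S.h * S.X ≤ S.h * S.X ^ 5 := by
          have h9 : S.X ^ 4 ≤ S.X ^ 5 := pow_le_pow_right₀ (by linarith) (by norm_num)
          have h10 := mul_le_mul_of_nonneg_left h9 hh.le
          calc S.X ^ 3 * S.h * S.X = S.h * S.X ^ 4 := by ring
            _ ≤ S.h * S.X ^ 5 := h10
        linarith
      have h5 : (∑ p ∈ Pr S.P (S.P ^ B), 1 / (p : ℝ)) * (|u| * (S.h / 2)) ≤ c / 2 := by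
        calc (∑ p ∈ Pr S.P (S.P ^ B), 1 / (p : ℝ)) * (|u| * (S.h / 2))
            ≤ B * (1 / (2 * S.X)) := mul_le_mul h3 h4 (by positivity) (by positivity)
          _ ≤ c / 2 := by
              rw [div_le_iff₀ hc] at e5
              rw [mul_one_div, div_le_iff₀ (by positivity)]
              linarith
      have h1' : c ≤ ∑ p ∈ Pr S.P (S.P ^ B), 1 / (p : ℝ) * (1 + Real.cos (u * Real.log p)) := h1
      refine (min_le_right _ _).trans ?_
      linarith
    · -- large frequencies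
      have hVξ : 1 ≤ (S.V : ℝ) * |ξ'| := by
        have h1 : |ξ'| = |u| * S.h / (2 * Real.pi) := by
          rw [hu, abs_div, abs_mul, abs_of_pos hh, abs_of_pos (by positivity : 0 < 2 * Real.pi)]
          have := Real.pi_pos
          field_simp
        have h2 : S.rho ^ 2 / 2 * S.X ^ 3 ≤ (S.V : ℝ) * S.h * |u| :=
          mul_le_mul hV1 hU.le (by positivity) (by positivity)
        have h3 : S.X ≤ S.rho ^ 2 * S.X ^ 3 := by
          have h4 : 1 ≤ S.rho * S.X := by
            rwa [div_le_iff₀ hX0] at hrX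
          calc S.X ≤ (S.rho * S.X) ^ 2 * S.X := le_mul_of_one_le_left hX0.le (one_le_pow₀ h4)
            _ = S.rho ^ 2 * S.X ^ 3 := by ring
        rw [h1, ← mul_div_assoc, le_div_iff₀ (by positivity)]
        have h4 : 2 * (2 * Real.pi) ≤ 13 := by linarith [Real.pi_lt_d2]
        have h5 : (S.V : ℝ) * (|u| * S.h) = (S.V : ℝ) * S.h * |u| := by ring
        rw [h5]
        linarith
      have h1 := hAVG S.V ξ' hV hξ hVξ
      refine (min_le_left _ _).trans ?_
      linarith [hT1]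

end Pool.Agent.H1.N4D
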